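import Pool.Agent.U507.FW.Fin

/-! # Montgomery's pair correlation conjecture is decided by one-sided information on far windows,
with errors in Carleman's (quasi-analytic) class, and by finitely many such windows

Everything in the statement is defined in this file. -/

set_option autoImplicit false

open MeasureTheory Set Filter Topology

namespace Pool.Agent.Results.MP_103a5c_nt.FarWindowsCarleman

/-- the nontrivial zeros of `ζ` with ordinate in `(0, T]` -/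
def zeros (T : ℝ) : Set ℂ :=
  {s : ℂ | 0 < s.re ∧ s.re < 1 ∧ 0 < s.im ∧ s.im ≤ T ∧ riemannZeta s = 0}

/-- the multiplicity of `s` as a zero of `ζ` -/
noncomputable def mult (s : ℂ) : ℕ := analyticOrderNatAt riemannZeta s

/-- `N(T; α, β)`: the number of ordered pairs `(γ, γ')` of ordinates in `(0, T]`, counted with
multiplicity, with `2πα / log T ≤ γ - γ' ≤ 2πβ / log T` -/
noncomputable def N (T α β : ℝ) : ℕ :=
  ∑ᶠ s ∈ zeros T, ∑ᶠ s' ∈ {s' : ℂ | s' ∈ zeros T ∧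
    2 * Real.pi * α / Real.log T ≤ s.im - s'.im ∧ s.im - s'.im ≤ 2 * Real.pi * β / Real.log T},
      mult s * mult s'

/-- the constant `∫_α^β (1 - (sin πu / πu)²) du + δ(α, β)` of the conjecture -/
noncomputable def P (α β : ℝ) : ℝ :=
  (∫ u in α..β, (1 - (Real.sin (Real.pi * u) / (Real.pi * u)) ^ 2)) +
    if α ≤ 0 ∧ 0 ≤ β then 1 else 0

/-- `(T / 2π) log T` -/
noncomputable def X (T : ℝ) : ℝ := T / (2 * Real.pi) * Real.log T

/-- the discrepancy `N(T; α, β) / ((T / 2π) log T) - P(α, β)` -/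
noncomputable def D (T α β : ℝ) : ℝ := N T α β / X T - P α β

/-- the pair correlation conjecture, for `T → ∞` along the filter `l` -/
def Montgomery (l : Filter ℝ) : Prop := ∀ α β : ℝ, α < β →
  Asymptotics.IsEquivalent l (fun T => (N T α β : ℝ)) (fun T => P α β * X T)

/-- Carleman's class of errors: nonnegative measurable functions all of whose moments
`m_k = ∫_0^∞ x^k E(x) dx` are finite and satisfy `∑_{k ≥ 1} (m_{2k})^(-1/(2k)) = ∞` -/
def Carleman (E : ℝ → ℝ) : Prop :=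
  Measurable E ∧ (∀ x, 0 ≤ E x) ∧ (∀ k : ℕ, IntegrableOn (fun x => x ^ k * E x) (Ioi 0)) ∧
    ¬ Summable fun k : ℕ =>
      (∫ x in Ioi (0 : ℝ), x ^ (2 * (k + 1)) * E x) ^ (-((2 * ((k : ℝ) + 1))⁻¹))

/-- for `s = 1`: for almost every large `a`, the window `[a, a + ℓ]` of length `ℓ` contains, in the
limit along `l`, at most the conjectured number of pairs plus an error `E a`, where `E` is in
Carleman's class; for `s = -1`: at least the conjectured number minus such an error -/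
def OneSided (l : Filter ℝ) (ℓ s : ℝ) : Prop := ∃ (E : ℝ → ℝ) (A : ℝ), Carleman E ∧ 0 < A ∧
  ∀ᵐ a, A ≤ a → ∀ ε : ℝ, 0 < ε → ∀ᶠ T in l, s * D T a (a + ℓ) ≤ E a + ε

lemma D_eq : D = Pool.Agent.Y744.G.D := rfl
lemma Montgomery_eq : Montgomery = Pool.Agent.Y744.G.Montgomery := rfl
lemma Carleman_eq : Carleman = Pool.Agent.U507.FW.Carl := rfl
lemma OneSided_eq : OneSided = Pool.Agent.U507.FW.OneSidedC := rfl

/-- **far away windows decide the pair correlation conjecture.** Assume RH.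

(0) The functions `C exp (-c x / log (x + 2))`, `C, c > 0`, are in Carleman's class.

(1) Let `T → ∞` along any filter `l`, let `ℓ₁, ℓ₂ > 0` with `ℓ₁ / ℓ₂` irrational, and choose for
each of the two lengths one of the two sides (upper or lower bound). The pair correlation
conjecture (for all windows) holds along `l` if and only if the two chosen one-sided bounds hold
for the windows `[a, a + ℓ₁]`, `[a, a + ℓ₂]` for almost all large `a`, up to errors in Carleman's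
class.

(2) If one such one-sided bound holds for windows of one length `ℓ`, then every window
`[α, β]` has discrepancy at most `π² ℓ³ / 9` in the limit.

(3) Finite certificates: given lengths, sides and errors as in (1), a window `[α, β]` and `ε > 0`,
there are finitely many positions `a ≥ A` and a tolerance `δ > 0` such that, for every large `T`,
the one-sided bounds for these finitely many windows up to `δ` imply `|D(T; α, β)| ≤ ε`.

(4) The same for windows of one length `ℓ`, with `π² ℓ³ / 9 + ε` in place of `ε`. -/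
theorem result (hRH : RiemannHypothesis) :
    (∀ C c : ℝ, 0 < C → 0 < c →
      Carleman fun x => C * Real.exp (-(c * x / Real.log (x + 2)))) ∧
    (∀ l : Filter ℝ, l ≤ atTop → ∀ ℓ₁ ℓ₂ s₁ s₂ : ℝ, 0 < ℓ₁ → 0 < ℓ₂ → Irrational (ℓ₁ / ℓ₂) →
      (s₁ = 1 ∨ s₁ = -1) → (s₂ = 1 ∨ s₂ = -1) →
      (Montgomery l ↔ OneSided l ℓ₁ s₁ ∧ OneSided l ℓ₂ s₂)) ∧
    (∀ l : Filter ℝ, l ≤ atTop → ∀ ℓ s : ℝ, 0 < ℓ → (s = 1 ∨ s = -1) → OneSided l ℓ s →
      ∀ α β : ℝ, α < β → ∀ ε : ℝ, 0 < ε →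
        ∀ᶠ T in l, |D T α β| ≤ Real.pi ^ 2 / 9 * ℓ ^ 3 + ε) ∧
    (∀ ℓ₁ ℓ₂ s₁ s₂ A : ℝ, 0 < ℓ₁ → 0 < ℓ₂ → Irrational (ℓ₁ / ℓ₂) → (s₁ = 1 ∨ s₁ = -1) →
      (s₂ = 1 ∨ s₂ = -1) → 0 < A → ∀ E₁ E₂ : ℝ → ℝ, Carleman E₁ → Carleman E₂ →
      ∀ α β : ℝ, α < β → ∀ ε : ℝ, 0 < ε →
      ∃ (S : Finset ℝ) (δ T₀ : ℝ), (∀ a ∈ S, A ≤ a) ∧ 0 < δ ∧ ∀ T, T₀ ≤ T →
        (∀ a ∈ S, s₁ * D T a (a + ℓ₁) ≤ E₁ a + δ ∧ s₂ * D T a (a + ℓ₂) ≤ E₂ a + δ) →
        |D T α β| ≤ ε) ∧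
    (∀ ℓ s A : ℝ, 0 < ℓ → (s = 1 ∨ s = -1) → 0 < A → ∀ E : ℝ → ℝ, Carleman E →
      ∀ α β : ℝ, α < β → ∀ ε : ℝ, 0 < ε →
      ∃ (S : Finset ℝ) (δ T₀ : ℝ), (∀ a ∈ S, A ≤ a) ∧ 0 < δ ∧ ∀ T, T₀ ≤ T →
        (∀ a ∈ S, s * D T a (a + ℓ) ≤ E a + δ) →
        |D T α β| ≤ Real.pi ^ 2 / 9 * ℓ ^ 3 + ε) := by
  rw [D_eq, Montgomery_eq, OneSided_eq, Carleman_eq]
  exact ⟨fun C c hC hc => Pool.Agent.U507.FW.carl_ex hC hc,
    fun l hl ℓ₁ ℓ₂ s₁ s₂ h1 h2 hirr hs1 hs2 =>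
      Pool.Agent.U507.FW.crit hRH l hl h1 h2 hirr hs1 hs2,
    fun l hl ℓ s hℓ hs h α β hαβ ε hε => Pool.Agent.U507.FW.one hRH l hl hℓ hs h hαβ hε,
    fun ℓ₁ ℓ₂ s₁ s₂ A h1 h2 hirr hs1 hs2 hA E₁ E₂ hE1 hE2 α β hαβ ε hε =>
      Pool.Agent.U507.FW.cert_two hRH h1 h2 hirr hs1 hs2 hA hE1 hE2 hαβ hε,
    fun ℓ s A hℓ hs hA E hE α β hαβ ε hε =>
      Pool.Agent.U507.FW.cert_one hRH hℓ hs hA hE hαβ hε⟩

end Pool.Agent.Results.MP_103a5c_nt.FarWindowsCarleman
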