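import Pool.Agent.U403.Joint.J6
import Pool.Agent.H177R3.LatD

/-!
# Joint large deviations of the numbers of zeros in windows on all scales

The Riemann hypothesis is assumed, as in the problem. Let `0 < a_i ≤ 1`, `i = 1, …, k`, be different. For `t` in
`(T, 2 T]` let `D_i(t)` be the number of the zeros with ordinates in the window `(t, t + 2 π ⌊r^(a_i)⌋ / log T]`, with
multiplicity, minus the expected number `⌊r^(a_i)⌋`. The distribution of the vector `(D_1, …, D_k) / log r`, in the
limit `T → ∞` and then `r → ∞`, satisfies the large deviation principle in `ℝ^k` with speed `log r` and the rate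
function `x · S⁻¹ x / 2`, where `S_ij = min (a_i, a_j) / (2 π²)` for `i ≠ j` and `S_ii = a_i / π²`. This is the rate
function of the zeros of the Gaussian unitary ensemble, of a Gaussian field with logarithmic correlations: the
proportion of the `t` with the vector in a set `E` is at most `r ^ (-m + o(1))`, `m` the infimum of the rate function
on `E`, and at least `r ^ (-m' + o(1))`, `m'` its infimum on the interior of `E`. For example, for one window of length
`r` the proportion of the `t` with `D ≥ x log r` is `r ^ (- π² x² / 2 + o(1))`, and by the contraction principle the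
theorem contains the windows between any two of the points `t`, `t + 2 π ⌊r^(a_i)⌋ / log T`.

Proof. Comparison with prime sums over `T ^ (r ^ (- a_i)) < p < T ^ (r ^ (- 1 / K))` with errors `ε log r` outside of a
set of proportion `r ^ (- A)` for every `A` (Riemann hypothesis, smooth explicit formula, high moments); the Laplace
transforms of all linear forms of these prime sums from exponentially many (in `log r`) moments, on a common set where
they are bounded; covering by half spaces for the upper bound, Cramér's change of measure in `k` variables for the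
lower bound.
-/

set_option autoImplicit false

open Filter MeasureTheory

namespace Pool.Agent.Results.MP_103a5c_nt.JointLargeDeviations

/-- multiplicity of `s` as a zero of the Riemann zeta function (order of vanishing at `s`) -/
noncomputable def zmult (s : ℂ) : ℕ := analyticOrderNatAt riemannZeta s

/-- the number of nontrivial zeros of `ζ` with ordinate in `(0, t]`, with multiplicity -/
noncomputable def NZ (t : ℝ) : ℕ :=
  ∑ᶠ s ∈ {s : ℂ | riemannZeta s = 0 ∧ 0 < s.re ∧ s.re < 1 ∧ 0 < s.im ∧ s.im ≤ t}, zmult s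

/-- the vector with the components: the number of the zeros with ordinate in `(t, t + 2 π ⌊r^(a_i)⌋ / log T]` minus
`⌊r^(a_i)⌋`, divided by `log r` -/
noncomputable def deviation {k : ℕ} (a : Fin k → ℝ) (r : ℕ) (T t : ℝ) : Fin k → ℝ := fun i =>
  ((NZ (t + 2 * Real.pi * (⌊(r : ℝ) ^ a i⌋₊ : ℝ) / Real.log T) : ℝ) - NZ t - (⌊(r : ℝ) ^ a i⌋₊ : ℝ)) / Real.log r

/-- the proportion of the `t ∈ (T, 2 T]` for which the vector is in `E` -/
noncomputable def share {k : ℕ} (a : Fin k → ℝ) (E : Set (Fin k → ℝ)) (r : ℕ) (T : ℝ) : ℝ :=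
  volume.real {t : ℝ | T < t ∧ t ≤ 2 * T ∧ deviation a r T t ∈ E} / T

/-- the covariance matrix -/
noncomputable def cov {k : ℕ} (a : Fin k → ℝ) : Matrix (Fin k) (Fin k) ℝ :=
  Matrix.of fun i j => (min (a i) (a j) + if i = j then a i else 0) / (2 * Real.pi ^ 2)

/-- the rate function -/
noncomputable def rate {k : ℕ} (a x : Fin k → ℝ) : ℝ := (x ⬝ᵥ (Matrix.mulVec (cov a)⁻¹ x)) / 2

theorem dd_eq (a : ℝ) {r : ℕ} (hr : 0 < r) : Pool.Agent.U403.Joint.dd2 a r = ⌊(r : ℝ) ^ a⌋₊ := by
  have h0 : (0 : ℝ) < r := by exact_mod_cast hr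
  unfold Pool.Agent.U403.Joint.dd2
  rw [Real.rpow_def_of_pos h0, mul_comm]

theorem dev_eq {k : ℕ} (a : Fin k → ℝ) {r : ℕ} (hr : 0 < r) (T t : ℝ) :
    Pool.Agent.U403.Joint.DV a r T t = deviation a r T t := by
  funext i
  unfold Pool.Agent.U403.Joint.DV deviation
  rw [← dd_eq (a i) hr]
  rfl

theorem share_eq {k : ℕ} (a : Fin k → ℝ) (E : Set (Fin k → ℝ)) {r : ℕ} (hr : 0 < r) {T : ℝ} (hT : 0 < T) :
    (Pool.Agent.U403.Max.PT T).real {t | Pool.Agent.U403.Joint.DV a r T t ∈ E} = share a E r T := by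
  unfold Pool.Agent.U403.Max.PT share
  rw [measureReal_ennreal_smul_apply, Measure.real, Measure.restrict_apply' measurableSet_Ioc, ENNReal.toReal_inv,
    ENNReal.toReal_ofReal hT.le, div_eq_inv_mul, Measure.real]
  congr 3
  ext t
  simp only [Set.mem_inter_iff, Set.mem_ofPred_eq, Set.mem_Ioc, dev_eq a hr]
  tauto

/-- **Joint large deviations.**  On the Riemann hypothesis, let `a_1, …, a_k` be different numbers in `(0, 1]`, let `E`
be ANY set in `ℝ^k` and `ε > 0`. The matrix `cov a` is invertible. If the rate function is at least `m` on `E`, then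
for all `r ≥ r₀` and `T ≥ T₀(r)` the proportion of the `t ∈ (T, 2 T]` for which the vector of the deviations is in `E`
is at most `r ^ (-m + ε)`. If `x` is in the interior of `E`, then for all `r ≥ r₀` and `T ≥ T₀(r)` it is at least
`r ^ (- rate x - ε)`. -/
theorem result (RH : RiemannHypothesis) {k : ℕ} (a : Fin k → ℝ) (ha : ∀ i, 0 < a i ∧ a i ≤ 1)
    (hinj : Function.Injective a) (E : Set (Fin k → ℝ)) (ε : ℝ) (hε : 0 < ε) :
    IsUnit (cov a).det ∧
    (∀ m : ℝ, (∀ x ∈ E, m ≤ rate a x) → ∃ r₀ : ℕ, ∀ r : ℕ, r₀ ≤ r → ∃ T₀ : ℝ, ∀ T : ℝ, T₀ ≤ T →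
      share a E r T ≤ (r : ℝ) ^ (-m + ε)) ∧
    (∀ x ∈ interior E, ∃ r₀ : ℕ, ∀ r : ℕ, r₀ ≤ r → ∃ T₀ : ℝ, ∀ T : ℝ, T₀ ≤ T →
      (r : ℝ) ^ (-rate a x - ε) ≤ share a E r T) := by
  refine ⟨Pool.Agent.U403.Joint.Sm_unit a fun i => (ha i).1, fun m hm => ?_, fun x hx => ?_⟩
  · obtain ⟨r₀, h⟩ := eventually_atTop.1 (Pool.Agent.U403.Joint.jointUp (H177.Lat.rhs_of RH) a (fun i => (ha i).1)
      (fun i => (ha i).2) hinj E m ε hε hm)
    refine ⟨max r₀ 1, fun r hr => ?_⟩
    obtain ⟨T₀, hT₀⟩ := eventually_atTop.1 (h r ((le_max_left _ _).trans hr))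
    refine ⟨max T₀ 1, fun T hT => ?_⟩
    have hr1 : 0 < r := lt_of_lt_of_le one_pos ((le_max_right _ _).trans hr)
    have hT1 : 0 < T := lt_of_lt_of_le one_pos ((le_max_right _ _).trans hT)
    have h1 := hT₀ T ((le_max_left _ _).trans hT)
    rw [share_eq a E hr1 hT1] at h1
    refine h1.trans (le_of_eq ?_)
    rw [Real.rpow_def_of_pos (by exact_mod_cast hr1)]
    congr 1
    ring
  · obtain ⟨r₀, h⟩ := eventually_atTop.1 (Pool.Agent.U403.Joint.jointLow (H177.Lat.rhs_of RH) a (fun i => (ha i).1)
      (fun i => (ha i).2) hinj E x hx ε hε)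
    refine ⟨max r₀ 1, fun r hr => ?_⟩
    obtain ⟨T₀, hT₀⟩ := eventually_atTop.1 (h r ((le_max_left _ _).trans hr))
    refine ⟨max T₀ 1, fun T hT => ?_⟩
    have hr1 : 0 < r := lt_of_lt_of_le one_pos ((le_max_right _ _).trans hr)
    have hT1 : 0 < T := lt_of_lt_of_le one_pos ((le_max_right _ _).trans hT)
    have h1 := hT₀ T ((le_max_left _ _).trans hT)
    rw [share_eq a E hr1 hT1] at h1
    refine le_trans (le_of_eq ?_) h1
    rw [Real.rpow_def_of_pos (by exact_mod_cast hr1)]
    congr 1
    show Real.log r * (-rate a x - ε) = -((rate a x + ε) * Real.log r)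
    ring

end Pool.Agent.Results.MP_103a5c_nt.JointLargeDeviations
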