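import Pool.Agent.U507.PC.CF

/-! # The Riemann hypothesis and Montgomery's pair correlation conjecture are equivalent to an upper
bound for the primes in intervals of relative length `1 / T`

Everything in the statement is defined in this file (`Chebyshev.psi` is Mathlib's Chebyshev
function `ψ`). -/

set_option autoImplicit false

open MeasureTheory Set Filter Topology

namespace Pool.Agent.Results.MP_103a5c_nt.OneSidedPrimeVariance

/-- the nontrivial zeros of `ζ` with ordinate in `(0, T]` -/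
def zeros (T : ℝ) : Set ℂ :=
  {s : ℂ | 0 < s.re ∧ s.re < 1 ∧ 0 < s.im ∧ s.im ≤ T ∧ riemannZeta s = 0}

/-- the multiplicity of `s` as a zero of `ζ` -/
noncomputable def mult (s : ℂ) : ℕ := analyticOrderNatAt riemannZeta s

/-- `N(T; α, β)`: the number of ordered pairs `(γ, γ')` of ordinates in `(0, T]`, counted with
multiplicity, with `2πα / log T ≤ γ - γ' ≤ 2πβ / log T` -/
noncomputable def N (T α β : ℝ) : ℕ :=
  ∑ᶠ s ∈ zeros T, ∑ᶠ s' ∈ {s' : ℂ | s' ∈ zeros T ∧
    2 * Real.pi * α / Real.log T ≤ s.im - s'.im ∧ s.im - s'.im ≤ 2 * Real.pi * β / Real.log T},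
      mult s * mult s'

/-- the constant `∫_α^β (1 - (sin πu / πu)²) du + δ(α, β)` of the conjecture -/
noncomputable def P (α β : ℝ) : ℝ :=
  (∫ u in α..β, (1 - (Real.sin (Real.pi * u) / (Real.pi * u)) ^ 2)) +
    if α ≤ 0 ∧ 0 ≤ β then 1 else 0

/-- `(T / 2π) log T` -/
noncomputable def X (T : ℝ) : ℝ := T / (2 * Real.pi) * Real.log T

/-- the pair correlation conjecture for all windows, `T → ∞` -/
def Montgomery (l : Filter ℝ) : Prop := ∀ α β : ℝ, α < β →
  Asymptotics.IsEquivalent l (fun T => (N T α β : ℝ)) (fun T => P α β * X T)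

/-- the mean square `(T / log² T) ∫_{T^a}^{T^b} (ψ(x + x/T) - ψ(x) - x/T)² dx / x²` of the error
term for the primes in the intervals `(x, x + x/T]`, over the exponents from `a` to `b` -/
noncomputable def M (T a b : ℝ) : ℝ :=
  T / Real.log T ^ 2 *
    ∫ x in (T ^ a)..(T ^ b), (Chebyshev.psi (x + x / T) - Chebyshev.psi x - x / T) ^ 2 / x ^ 2

lemma Montgomery_eq : Montgomery = Pool.Agent.Y744.G.Montgomery := rfl
lemma M_eq : M = Pool.Agent.U507.PC.Mt := rfl

/-- the one-sided bound for the primes: for every `b > 1`, with `a = max(1, b - ℓ)`,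
`limsup_{T → ∞} M(T; a, b) ≤ b - a` -/
def UpperBounds (ℓ : ℝ) : Prop := ∀ b : ℝ, 1 < b → ∀ ε : ℝ, 0 < ε → ∀ᶠ T in atTop,
  M T (max 1 (b - ℓ)) b ≤ b - max 1 (b - ℓ) + ε

lemma UpperBounds_eq : UpperBounds = Pool.Agent.U507.PC.Hyp := rfl

/-- **one-sided bounds for the primes, the Riemann hypothesis and pair correlation.** No hypothesis
is assumed.

(1) For every `ℓ > 0`: the Riemann hypothesis and Montgomery's pair correlation conjecture (for all
windows) hold if and only if, for every `b > 1`, with `a = max(1, b - ℓ)`,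
`limsup_{T → ∞} M(T; a, b) ≤ b - a`. No lower bound is required, the Riemann hypothesis is part of
the conclusion, and the averages are over exponents in intervals of length at most `ℓ` above `1`.

(2) In that case all the limits exist: `M(T; a, b) → ∫_a^b min(α, 1) dα` for all `0 ≤ a ≤ b`. -/
theorem result :
    (∀ ℓ : ℝ, 0 < ℓ → ((RiemannHypothesis ∧ Montgomery atTop) ↔ UpperBounds ℓ)) ∧
    (RiemannHypothesis → Montgomery atTop → ∀ a b : ℝ, 0 ≤ a → a ≤ b →
      Tendsto (fun T => M T a b) atTop (𝓝 (∫ α in a..b, min α 1))) := by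
  rw [M_eq, Montgomery_eq, UpperBounds_eq]
  refine ⟨fun ℓ hℓ => ⟨fun h => Pool.Agent.U507.PC.Hyp_of_mont h.1 h.2 hℓ, fun h => ?_⟩,
    fun hRH h a b ha hab => Pool.Agent.U507.PC.Mt_of_mont hRH h ha hab⟩
  have hRH := Pool.Agent.U507.PC.rh_of_Hyp hℓ h
  exact ⟨hRH, Pool.Agent.U507.PC.pcc_of_Hyp hRH hℓ h⟩

end Pool.Agent.Results.MP_103a5c_nt.OneSidedPrimeVariance
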