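import Pool.Agent.R304.UP.Main
import Pool.Agent.R304.UE.Mass

/-!
# Pair correlation of the zeros and the values of zeta in the strip (under RH)

Assume the Riemann hypothesis. Let `R` be a continuous even function supported in `[-κ, κ]`,
`κ < 1`, whose cosine transform `r` is `O(1/(1+x²))`. Montgomery's theorem evaluates the sum of
`r((γ - γ') log T / 2π)` over the pairs of zeros with ordinates in `(T, 2T]`: it is asymptotic to
`(R(0) + ∫ |α| R(α) dα) N(T)`.

Here every pair is weighted with the values of zeta near `1/2 + iγ` to the right of the critical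
line.

(A) For a compact subset `K` of `1/2 < Re z < 1` and every bounded functional `Φ` of functions on
`K`, uniformly continuous for the supremum over `K`, the weights `Φ(ζ(· + iγ))` have a mean value `m`
and the weighted pair sum is asymptotic to `m (R(0) + ∫ |α| R(α) dα) N(T)`.

(B) Let `f` be continuous on `K`, `0 < ε' < ε`, and `r ≥ 0`. The pair sum restricted to the `γ` with
`sup_K |ζ(z + iγ) - f(z)| < ε` is at least `(d(ε') (R(0) + ∫ |α| R(α) dα) - o(1)) N(T)`, and that for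
`ε'` is at most `(d(ε) (R(0) + ∫ |α| R(α) dα) + o(1)) N(T)`, where `d(ε)` is the upper density of
the set of all real `t` with `sup_K |ζ(z + it) - f(z)| < ε`.
-/

set_option autoImplicit false

open Filter Topology Complex MeasureTheory Set

namespace Pool.Agent.Results.MP_103a5c_nt.ValuesOfZetaPairs

/-- the nontrivial zeros of zeta with ordinate in `(T, 2T]` -/
def zeros (T : ℝ) : Set ℂ :=
  {s : ℂ | riemannZeta s = 0 ∧ 0 < s.re ∧ s.re < 1 ∧ T < s.im ∧ s.im ≤ 2 * T}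

/-- the multiplicity of a zero -/
noncomputable def mult (s : ℂ) : ℕ := analyticOrderNatAt riemannZeta s

/-- the number of nontrivial zeros with ordinate in `(T, 2T]`, counted with multiplicity -/
noncomputable def N (T : ℝ) : ℕ := ∑ᶠ s ∈ zeros T, mult s

/-- the test function `r(x) = ∫ R(α) cos(2π x α) dα`, for `R` supported in `[-1, 1]` -/
noncomputable def r (R : ℝ → ℝ) (x : ℝ) : ℝ :=
  ∫ α in (-1 : ℝ)..1, R α * Real.cos (2 * Real.pi * x * α)

/-- `R` is continuous, even, vanishes for `|α| ≥ κ`, and `r(x) = O(1/(1+x²))` -/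
structure TestFn (R : ℝ → ℝ) (κ : ℝ) : Prop where
  cont : Continuous R
  even : ∀ α, R (-α) = R α
  supp : ∀ α, κ ≤ |α| → R α = 0
  decay : ∃ K : ℝ, ∀ x : ℝ, |r R x| ≤ K / (1 + x ^ 2)

/-- the constant of Montgomery's theorem, `R(0) + ∫ |α| R(α) dα` -/
noncomputable def mont (R : ℝ → ℝ) : ℝ := R 0 + 2 * ∫ α in (0 : ℝ)..1, α * R α

/-- the sum of `r((γ - γ') log T / 2π) w(γ)` over all ordered pairs of zeros with ordinates
`γ, γ'` in `(T, 2T]`, counted with multiplicity, `γ = γ'` included -/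
noncomputable def pairSum (R w : ℝ → ℝ) (T : ℝ) : ℝ :=
  ∑ᶠ s ∈ zeros T, ∑ᶠ s' ∈ zeros T, (mult s : ℝ) * (mult s' : ℝ) *
    (r R ((s.im - s'.im) * Real.log T / (2 * Real.pi)) * w s.im)

/-- the function `ζ(· + it)` -/
noncomputable def shift (t : ℝ) : ℂ → ℂ := fun z => riemannZeta (z + t * I)

/-- `Φ` is a functional bounded by `B`, uniformly continuous for the supremum over `K` -/
structure Functional (K : Set ℂ) (B : ℝ) (Φ : (ℂ → ℂ) → ℝ) : Prop where
  bdd : ∀ g, |Φ g| ≤ B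
  unif : ∀ ε : ℝ, 0 < ε → ∃ δ : ℝ, 0 < δ ∧ ∀ g h : ℂ → ℂ, (∀ z ∈ K, ‖g z - h z‖ ≤ δ) →
    |Φ g - Φ h| ≤ ε

/-- `m` is the mean value of `Φ(ζ(· + it))` over the real `t` -/
def Mean (Φ : (ℂ → ℂ) → ℝ) (m : ℝ) : Prop :=
  Tendsto (fun X : ℝ => (∫ t in (0 : ℝ)..X, Φ (shift t)) / X) atTop (𝓝 m)

/-- `S_ε(K, f)`: the real `t` with `sup_{z ∈ K} |ζ(z + it) - f(z)| < ε` -/
def S (ε : ℝ) (K : Set ℂ) (f : ℂ → ℂ) : Set ℝ :=
  {t : ℝ | ∃ δ < ε, ∀ z ∈ K, ‖riemannZeta (z + t * I) - f z‖ ≤ δ}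

/-- the upper density `limsup_{X → ∞} X⁻¹ m(E ∩ [0, X])` -/
noncomputable def upperDensity (E : Set ℝ) : ENNReal :=
  limsup (fun X : ℝ => volume (E ∩ Icc 0 X) / ENNReal.ofReal X) atTop

open Classical in
/-- the indicator function of `E` -/
noncomputable def ind (E : Set ℝ) (t : ℝ) : ℝ := if t ∈ E then 1 else 0

section proof

open Pool.Agent.R304.UP Pool.Agent.R304.UE
open Pool.Agent.R304.UQ (sh_bdd)

lemma upperDensity_le (E : Set ℝ) : upperDensity E ≤ 1 := by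
  unfold upperDensity
  refine limsup_le_of_le (by isBoundedDefault) ?_
  filter_upwards [eventually_gt_atTop 0] with X hX
  refine ENNReal.div_le_of_le_mul ?_
  rw [one_mul]
  refine (measure_mono inter_subset_right).trans ?_
  rw [Real.volume_Icc, sub_zero]

lemma ud_ne_top (E : Set ℝ) : upperDensity E ≠ ⊤ :=
  ne_top_of_le_ne_top ENNReal.one_ne_top (upperDensity_le E)

lemma freq (E : Set ℝ) {D : ℝ} (hD : D < (upperDensity E).toReal) :
    ∃ᶠ X : ℝ in atTop, ENNReal.ofReal (D * X) ≤ volume (E ∩ Icc 0 X) := by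
  rcases le_or_gt D 0 with hD0 | hD0
  · refine Eventually.frequently ?_
    filter_upwards [eventually_gt_atTop 0] with X hX
    rw [ENNReal.ofReal_of_nonpos (mul_nonpos_of_nonpos_of_nonneg hD0 hX.le)]
    exact zero_le
  · have h1 : ENNReal.ofReal D < upperDensity E :=
      (ENNReal.ofReal_lt_iff_lt_toReal hD0.le (ud_ne_top E)).2 hD
    have h2 := frequently_lt_of_lt_limsup (by isBoundedDefault) h1
    refine (h2.and_eventually (eventually_gt_atTop 0)).mono ?_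
    rintro X ⟨h3, hX⟩
    rw [ENNReal.ofReal_mul hD0.le]
    exact (ENNReal.le_div_iff_mul_le (Or.inl (ENNReal.ofReal_pos.2 hX).ne')
      (Or.inl ENNReal.ofReal_ne_top)).1 h3.le

lemma ev (E : Set ℝ) {D : ℝ} (hD : (upperDensity E).toReal < D) :
    ∀ᶠ X : ℝ in atTop, volume (E ∩ Icc 0 X) ≤ ENNReal.ofReal (D * X) := by
  have hD0 : 0 < D := ENNReal.toReal_nonneg.trans_lt hD
  have h1 : upperDensity E < ENNReal.ofReal D :=
    (ENNReal.lt_ofReal_iff_toReal_lt (ud_ne_top E)).2 hD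
  have h2 := eventually_lt_of_limsup_lt h1 (by isBoundedDefault)
  filter_upwards [h2, eventually_gt_atTop 0] with X h3 hX
  rw [ENNReal.ofReal_mul hD0.le]
  exact (ENNReal.div_le_iff_le_mul (Or.inl (ENNReal.ofReal_pos.2 hX).ne')
      (Or.inl ENNReal.ofReal_ne_top)).1 h3.le

/-- lower bound of the mean value -/
lemma mean_ge {Φ : (ℂ → ℂ) → ℝ} (hc : Continuous fun t : ℝ => Φ (sh t)) (h0 : ∀ g, 0 ≤ Φ g)
    {E : Set ℝ} (h1 : ∀ t ∈ E, 1 ≤ Φ (sh t)) {D : ℝ}
    (hd : ∃ᶠ X : ℝ in atTop, ENNReal.ofReal (D * X) ≤ volume (E ∩ Icc 0 X)) {m : ℝ}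
    (hm : Tendsto (fun X : ℝ => (∫ t in (0 : ℝ)..X, Φ (sh t)) / X) atTop (𝓝 m)) : D ≤ m := by
  by_contra hcon
  push Not at hcon
  have hev := hm.eventually (eventually_lt_nhds hcon)
  obtain ⟨X, hX1, hX2, hX0⟩ := (hd.and_eventually (hev.and (eventually_gt_atTop 0))).exists
  rw [div_lt_iff₀ hX0, intervalIntegral.integral_of_le hX0.le,
    ← integral_Icc_eq_integral_Ioc] at hX2
  have hi : IntegrableOn (fun t : ℝ => Φ (sh t)) (Icc 0 X) :=
    hc.continuousOn.integrableOn_compact isCompact_Icc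
  set E' : Set ℝ := {t | 1 ≤ Φ (sh t)} with hE'
  have hEm : MeasurableSet E' := (isClosed_le continuous_const hc).measurableSet
  have hsub : E ∩ Icc 0 X ⊆ E' ∩ Icc 0 X := fun t ht => ⟨h1 t ht.1, ht.2⟩
  have hX1' := hX1.trans (measure_mono hsub)
  have hfin : volume (E' ∩ Icc 0 X) ≠ ⊤ := by
    refine ne_top_of_le_ne_top ?_ (measure_mono inter_subset_right)
    rw [Real.volume_Icc]; exact ENNReal.ofReal_ne_top
  have h2 : D * X ≤ ∫ t in Icc 0 X, Φ (sh t) := by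
    calc D * X ≤ (volume (E' ∩ Icc 0 X)).toReal := (ENNReal.ofReal_le_iff_le_toReal hfin).1 hX1'
      _ = ∫ t in E' ∩ Icc 0 X, (1 : ℝ) := by
          rw [setIntegral_const, smul_eq_mul, Measure.real, mul_one]
      _ ≤ ∫ t in E' ∩ Icc 0 X, Φ (sh t) :=
          setIntegral_mono_on (integrableOn_const hfin) (hi.mono_set inter_subset_right)
            (hEm.inter measurableSet_Icc) fun t ht => ht.1
      _ ≤ ∫ t in Icc 0 X, Φ (sh t) :=
          setIntegral_mono_set hi (Eventually.of_forall fun t => h0 _)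
            inter_subset_right.eventuallyLE
  linarith

/-- upper bound of the mean value -/
lemma mean_le_of {Φ : (ℂ → ℂ) → ℝ} (hc : Continuous fun t : ℝ => Φ (sh t)) (h1 : ∀ g, Φ g ≤ 1)
    {E : Set ℝ} (hE : ∀ t, 0 < Φ (sh t) → t ∈ E) {D : ℝ} (hD0 : 0 ≤ D)
    (hD : ∀ᶠ X : ℝ in atTop, volume (E ∩ Icc 0 X) ≤ ENNReal.ofReal (D * X)) {m : ℝ}
    (hm : Tendsto (fun X : ℝ => (∫ t in (0 : ℝ)..X, Φ (sh t)) / X) atTop (𝓝 m)) : m ≤ D := by
  refine le_of_tendsto hm ?_
  filter_upwards [hD, eventually_gt_atTop 0] with X hX hX0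
  rw [div_le_iff₀ hX0, intervalIntegral.integral_of_le hX0.le, ← integral_Icc_eq_integral_Ioc]
  obtain ⟨E', hE'⟩ : ∃ E' : Set ℝ, E' = {t : ℝ | 0 < Φ (sh t)} := ⟨_, rfl⟩
  have hEo : IsOpen E' := by
    rw [hE']
    exact isOpen_lt continuous_const hc
  have hEs : E' ⊆ E := by
    intro t ht
    rw [hE'] at ht
    exact hE t ht
  have hfin : volume (E' ∩ Icc 0 X) ≠ ⊤ := by
    refine ne_top_of_le_ne_top ?_ (measure_mono inter_subset_right)
    rw [Real.volume_Icc]; exact ENNReal.ofReal_ne_top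
  have h2 : ∫ t in Icc 0 X, Φ (sh t) ≤ ∫ t in Icc 0 X, E'.indicator (fun _ => (1 : ℝ)) t := by
    refine setIntegral_mono ?_ ?_ fun t => ?_
    · exact hc.continuousOn.integrableOn_compact isCompact_Icc
    · rw [IntegrableOn, integrable_indicator_iff hEo.measurableSet]
      refine integrableOn_const ?_
      rw [Measure.restrict_apply hEo.measurableSet]
      exact hfin
    · by_cases h : t ∈ E'
      · show _ ≤ E'.indicator (fun _ => (1 : ℝ)) t
        rw [indicator_of_mem h]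
        exact h1 _
      · show _ ≤ E'.indicator (fun _ => (1 : ℝ)) t
        rw [indicator_of_notMem h]
        rw [hE'] at h
        exact not_lt.1 h
  refine h2.trans ?_
  rw [integral_indicator hEo.measurableSet, Measure.restrict_restrict hEo.measurableSet,
    setIntegral_const, smul_eq_mul, mul_one, Measure.real]
  have h3 := (measure_mono (inter_subset_inter_left (Icc 0 X) hEs)).trans hX
  have h4 := ENNReal.toReal_mono ENNReal.ofReal_ne_top h3
  rwa [ENNReal.toReal_ofReal (by positivity)] at h4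

lemma testFn {R : ℝ → ℝ} {κ : ℝ} (h : TestFn R κ) :
    Pool.Agent.Results.MP_103a5c_nt.BohrSetPairs.TestFn R κ :=
  ⟨h.cont, h.even, h.supp, h.decay⟩

lemma fnl {K : Set ℂ} {B : ℝ} {Φ : (ℂ → ℂ) → ℝ} (h : Functional K B Φ) : Fnl K Φ B :=
  ⟨h.bdd, h.unif⟩

lemma N_eq (T : ℝ) : (N T : ℝ) = (H370.NN riemannZeta T (2 * T) : ℝ) := by
  rw [← Pool.Agent.Results.MP_103a5c_nt.BohrSetPairs.N_eq]
  rfl

/-- the pair sum as a finite sum -/
lemma pairSum_eq (R v : ℝ → ℝ) {T : ℝ} (hT : 1 ≤ T) : pairSum R v T =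
    ∑ s ∈ H370.Zf riemannZeta T (2 * T),
      ∑ s' ∈ H370.Zf riemannZeta T (2 * T), (mult s : ℝ) * (mult s' : ℝ) *
        (r R ((s.im - s'.im) * Real.log T / (2 * Real.pi)) * v s.im) := by
  have e : zeros T = H370.zset riemannZeta T (2 * T) :=
    Pool.Agent.Results.MP_103a5c_nt.BohrSetPairs.zeros_eq T (2 * T)
  unfold pairSum
  rw [e, H370.finsum_Zf H370.good_zeta hT]
  refine Finset.sum_congr rfl fun s _ => ?_
  rw [H370.finsum_Zf H370.good_zeta hT]

lemma pairSum_mono {R v w : ℝ → ℝ} (hr : ∀ x, 0 ≤ r R x) (h : ∀ t, v t ≤ w t) {T : ℝ}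
    (hT : 1 ≤ T) : pairSum R v T ≤ pairSum R w T := by
  rw [pairSum_eq R v hT, pairSum_eq R w hT]
  refine Finset.sum_le_sum fun s _ => Finset.sum_le_sum fun s' _ => ?_
  exact mul_le_mul_of_nonneg_left (mul_le_mul_of_nonneg_left (h _) (hr _)) (by positivity)

lemma pairSum_nonneg {R w : ℝ → ℝ} (hr : ∀ x, 0 ≤ r R x) (h : ∀ t, 0 ≤ w t) {T : ℝ}
    (hT : 1 ≤ T) : 0 ≤ pairSum R w T := by
  rw [pairSum_eq R w hT]
  refine Finset.sum_nonneg fun s _ => Finset.sum_nonneg fun s' _ => ?_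
  exact mul_nonneg (by positivity) (mul_nonneg (hr _) (h _))

/-- part A for a given mean value -/
lemma partA (RH : RiemannHypothesis) {K : Set ℂ} (hK : IsCompact K)
    (hKs : K ⊆ {z | 1 / 2 < z.re ∧ z.re < 1}) {Φ : (ℂ → ℂ) → ℝ} {B : ℝ} (hΦ : Fnl K Φ B)
    {m : ℝ} (hm : Mean Φ m) {R : ℝ → ℝ} {κ : ℝ} (h0 : 0 < κ) (h1 : κ < 1) (hR : TestFn R κ)
    {ε : ℝ} (hε : 0 < ε) : ∃ T₀ : ℝ, ∀ T : ℝ, T₀ ≤ T →
      |pairSum R (fun t => Φ (shift t)) T - m * mont R * N T| ≤ ε * N T := by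
  obtain ⟨T₀, h⟩ := pairs_main RH (testFn hR) h0 h1 hK hKs hΦ hm hε
  refine ⟨T₀, fun T hT => ?_⟩
  rw [N_eq]
  exact h T hT

lemma mont_nonneg (RH : RiemannHypothesis) {R : ℝ → ℝ} {κ : ℝ} (h0 : 0 < κ) (h1 : κ < 1)
    (hR : TestFn R κ) (hr : ∀ x, 0 ≤ r R x) : 0 ≤ mont R := by
  have hΦ : Fnl (∅ : Set ℂ) (fun _ => (1 : ℝ)) 1 := ⟨fun g => by simp, fun ε hε =>
    ⟨1, one_pos, fun g h _ => by simpa using hε.le⟩⟩
  have hm : Mean (fun _ => (1 : ℝ)) 1 := by
    unfold Mean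
    refine tendsto_const_nhds.congr' ?_
    filter_upwards [eventually_gt_atTop 0] with X hX
    rw [intervalIntegral.integral_const, sub_zero, smul_eq_mul, mul_one, div_self hX.ne']
  by_contra hcon
  push Not at hcon
  obtain ⟨T₀, h⟩ := partA RH isCompact_empty (by simp) hΦ hm h0 h1 hR
    (ε := -mont R / 2) (by linarith)
  obtain ⟨T1, hT1, hlow⟩ := TH803UC.NN_low H370.good_zeta
  set T : ℝ := max (max T₀ T1) 10 with hT
  have hT0 : T₀ ≤ T := (le_max_left _ _).trans (le_max_left _ _)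
  have hT1' : T1 ≤ T := (le_max_right _ _).trans (le_max_left _ _)
  have hT10 : 10 ≤ T := le_max_right _ _
  have h2 := (abs_le.1 (h T hT0)).1
  have h3 := (abs_le.1 (h T hT0)).2
  have h4 := pairSum_nonneg (R := R) (w := fun _ => (1 : ℝ)) hr (fun _ => zero_le_one)
    (show 1 ≤ T by linarith)
  have h5 := hlow T hT1'
  rw [← N_eq] at h5
  have h6 : 0 < T * Real.log T := mul_pos (by linarith) (Real.log_pos (by linarith))
  have h7 : (0 : ℝ) < N T := by
    by_contra h8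
    push Not at h8
    have : (0 : ℝ) ≤ N T := Nat.cast_nonneg _
    have h9 : (N T : ℝ) = 0 := le_antisymm h8 this
    rw [h9] at h5
    linarith
  have h8 : pairSum R (fun _ => (1 : ℝ)) T - 1 * mont R * N T ≤ -mont R / 2 * N T := h3
  have h9 := mul_neg_of_neg_of_pos hcon h7
  linarith

/-- part B -/
lemma partB (RH : RiemannHypothesis) {K : Set ℂ} (hK : IsCompact K)
    (hKs : K ⊆ {z | 1 / 2 < z.re ∧ z.re < 1}) {f : ℂ → ℂ} (hf : ContinuousOn f K) {ε' ε : ℝ}
    (hε' : 0 < ε') (hlt : ε' < ε) {R : ℝ → ℝ} {κ : ℝ} (h0 : 0 < κ) (h1 : κ < 1)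
    (hR : TestFn R κ) (hr : ∀ x, 0 ≤ r R x) {η : ℝ} (hη : 0 < η) : ∃ T₀ : ℝ, ∀ T : ℝ, T₀ ≤ T →
      ((upperDensity (S ε' K f)).toReal * mont R - η) * N T ≤ pairSum R (ind (S ε K f)) T ∧
      pairSum R (ind (S ε' K f)) T ≤ ((upperDensity (S ε K f)).toReal * mont R + η) * N T := by
  classical
  have hne := sh_bdd hK hKs hf
  have hΦ := ramp_fnl (K := K) f hlt
  obtain ⟨m, hm⟩ := mean_exists hK hKs hΦ
  have hcont := sh_cont hK hKs hΦ
  have hmont := mont_nonneg RH h0 h1 hR hr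
  have hone : ∀ t ∈ S ε' K f, ramp K f ε' ε (sh t) = 1 := fun t ht => ramp_one hε'.le hlt ht
  have hzero : ∀ t, 0 < ramp K f ε' ε (sh t) → t ∈ S ε K f := fun t ht =>
    ramp_pos hlt (hne t) ht
  have hm1 : (upperDensity (S ε' K f)).toReal ≤ m := by
    refine le_of_forall_lt_imp_le_of_dense fun D hD => ?_
    exact mean_ge hcont (ramp_nonneg K f ε' ε) (fun t ht => (hone t ht).ge) (freq _ hD) hm
  have hm2 : m ≤ (upperDensity (S ε K f)).toReal := by
    refine le_of_forall_gt_imp_ge_of_dense fun D hD => ?_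
    exact mean_le_of hcont (ramp_le K f ε' ε) hzero (ENNReal.toReal_nonneg.trans hD.le)
      (ev _ hD) hm
  obtain ⟨T₀, h⟩ := partA RH hK hKs hΦ hm h0 h1 hR hη
  refine ⟨max T₀ 1, fun T hT => ?_⟩
  have hT0 : T₀ ≤ T := (le_max_left _ _).trans hT
  have hT1 : 1 ≤ T := (le_max_right _ _).trans hT
  have hN : (0 : ℝ) ≤ N T := Nat.cast_nonneg _
  have h2 := abs_le.1 (h T hT0)
  constructor
  · have h3 : pairSum R (fun t => ramp K f ε' ε (shift t)) T ≤ pairSum R (ind (S ε K f)) T := by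
      refine pairSum_mono hr (fun t => ?_) hT1
      show ramp K f ε' ε (sh t) ≤ ind (S ε K f) t
      unfold ind
      split_ifs with ht
      · exact ramp_le _ _ _ _ _
      · exact not_lt.1 fun h4 => ht (hzero t h4)
    have h4 : (upperDensity (S ε' K f)).toReal * mont R * N T ≤ m * mont R * N T :=
      mul_le_mul_of_nonneg_right (mul_le_mul_of_nonneg_right hm1 hmont) hN
    linarith [h2.1]
  · have h3 : pairSum R (ind (S ε' K f)) T ≤ pairSum R (fun t => ramp K f ε' ε (shift t)) T := by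
      refine pairSum_mono hr (fun t => ?_) hT1
      show ind (S ε' K f) t ≤ ramp K f ε' ε (sh t)
      unfold ind
      split_ifs with ht
      · exact (hone t ht).ge
      · exact ramp_nonneg _ _ _ _ _
    have h4 : m * mont R * N T ≤ (upperDensity (S ε K f)).toReal * mont R * N T :=
      mul_le_mul_of_nonneg_right (mul_le_mul_of_nonneg_right hm2 hmont) hN
    linarith [h2.2]

end proof

/-- **Pair correlation and the values of zeta.** -/
theorem result (RH : RiemannHypothesis) :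
    -- (A) weights given by functionals of the values of zeta
    (∀ (K : Set ℂ) (B : ℝ) (Φ : (ℂ → ℂ) → ℝ), IsCompact K → (∀ z ∈ K, 1 / 2 < z.re ∧ z.re < 1) →
      Functional K B Φ → ∃ m : ℝ, Mean Φ m ∧
      ∀ (R : ℝ → ℝ) (κ : ℝ), 0 < κ → κ < 1 → TestFn R κ → ∀ ε : ℝ, 0 < ε →
        ∃ T₀ : ℝ, ∀ T : ℝ, T₀ ≤ T →
          |pairSum R (fun t => Φ (shift t)) T - m * mont R * N T| ≤ ε * N T) ∧
    -- (B) pairs at the zeros where zeta imitates a given function
    (∀ (K : Set ℂ) (f : ℂ → ℂ), IsCompact K → (∀ z ∈ K, 1 / 2 < z.re ∧ z.re < 1) →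
      ContinuousOn f K → ∀ ε' ε : ℝ, 0 < ε' → ε' < ε →
      ∀ (R : ℝ → ℝ) (κ : ℝ), 0 < κ → κ < 1 → TestFn R κ → (∀ x, 0 ≤ r R x) →
      ∀ η : ℝ, 0 < η → ∃ T₀ : ℝ, ∀ T : ℝ, T₀ ≤ T →
        ((upperDensity (S ε' K f)).toReal * mont R - η) * N T ≤ pairSum R (ind (S ε K f)) T ∧
        pairSum R (ind (S ε' K f)) T ≤ ((upperDensity (S ε K f)).toReal * mont R + η) * N T) := by
  refine ⟨fun K B Φ hK hKs hΦ => ?_, fun K f hK hKs hf ε' ε hε' hlt R κ h0 h1 hR hr η hη =>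
    partB RH hK hKs hf hε' hlt h0 h1 hR hr hη⟩
  obtain ⟨m, hm⟩ := Pool.Agent.R304.UP.mean_exists hK hKs (fnl hΦ)
  exact ⟨m, hm, fun R κ h0 h1 hR ε hε => partA RH hK hKs (fnl hΦ) hm h0 h1 hR hε⟩

end Pool.Agent.Results.MP_103a5c_nt.ValuesOfZetaPairs
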